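import Mathlib

/-!
# Weights on the commuting graph and the commuting conductor

Let `z` be an element of a finite group `G`, with centralizer `H`, and let `u` be a rational weight
on the noncentral elements `w` of `H` with `C_G(w) ≤ H` such that the weights of the elements
commuting with `y` add up to `1` for every noncentral element `y` of `H`.  If the total weight is
not `1`, then every prime dividing the numerator of (total weight - 1) lies in the commuting
conductor of `G`.
-/

namespace Pool.Agent.Results.MP_5fbfc2_al.CommutingWeights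

open Classical in
/-- The row at `g` of the commuting matrix of `G`. -/
noncomputable def commRow {G : Type*} [Group G] (g : G) : G → ℤ :=
  fun h => if g * h = h * g then 1 else 0

/-- The commuting difference lattice `M(G)`. -/
noncomputable def diffLattice (G : Type*) [Group G] : Submodule ℤ (G → ℤ) :=
  Submodule.span ℤ {f | ∃ g g' : G, f = commRow g - commRow g'}

/-- The rank over `𝔽_p` of the image of `M(G)` in `𝔽_p^G`. -/
noncomputable def rankMod (G : Type*) [Group G] (p : ℕ) : ℕ :=
  Module.finrank (ZMod p) (Submodule.span (ZMod p)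
    ((fun (f : G → ℤ) (h : G) => ((f h : ℤ) : ZMod p)) '' (diffLattice G : Set (G → ℤ))))

/-- The commuting conductor: the primes at which the rank of `M(G)` drops. -/
def Ccomm (G : Type*) [Group G] : Set ℕ :=
  {p | p.Prime ∧ rankMod G p < Module.finrank ℤ (diffLattice G)}

/-- The centralizer of a single element. -/
def cent {G : Type*} [Group G] (x : G) : Subgroup G := Subgroup.centralizer {x}

/-- The noncentral elements of the centralizer of `z`. -/
def outer {G : Type*} [Group G] (z : G) : Set G :=
  {x | x ∈ cent z ∧ ∃ h ∈ cent z, x * h ≠ h * x}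

/-! ## Linear algebra -/

theorem rank_drop {ι : Type*} [Finite ι] (M : Submodule ℤ (ι → ℤ)) (p : ℕ) [Fact p.Prime]
    (ψ : ι → ℤ) (h1 : (p : ℤ) • ψ ∈ M) (h2 : ψ ∉ M) :
    Module.finrank (ZMod p) (Submodule.span (ZMod p)
      ((fun (f : ι → ℤ) (i : ι) => ((f i : ℤ) : ZMod p)) '' (M : Set (ι → ℤ))))
      < Module.finrank ℤ M := by
  classical
  have := Fintype.ofFinite ι
  set e := Module.finBasis ℤ M with he
  set v : Fin (Module.finrank ℤ M) → (ι → ZMod p) :=
    fun j i => (((e j : M) : ι → ℤ) i : ZMod p) with hv
  have hrep : ∀ f : M, (fun i => (((f : ι → ℤ) i : ℤ) : ZMod p))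
      = ∑ j, ((e.repr f j : ℤ) : ZMod p) • v j := by
    intro f
    funext i
    have h := e.sum_repr f
    have h' : ((f : ι → ℤ)) i = ∑ j, e.repr f j * ((e j : M) : ι → ℤ) i := by
      have h2 := congrFun (congrArg (fun m : M => (m : ι → ℤ)) h) i
      simp only [Submodule.coe_sum, Submodule.coe_smul, Finset.sum_apply, Pi.smul_apply,
        smul_eq_mul] at h2
      exact h2.symm
    rw [h']
    simp [hv]
  have hspan : Submodule.span (ZMod p)
      ((fun (f : ι → ℤ) (i : ι) => ((f i : ℤ) : ZMod p)) '' (M : Set (ι → ℤ)))
      = Submodule.span (ZMod p) (Set.range v) := by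
    apply le_antisymm
    · rw [Submodule.span_le]
      rintro _ ⟨f, hf, rfl⟩
      have := hrep ⟨f, hf⟩
      simp only at this
      simp only [SetLike.mem_coe]
      rw [this]
      exact Submodule.sum_mem _ fun j _ => Submodule.smul_mem _ _
        (Submodule.subset_span ⟨j, rfl⟩)
    · rw [Submodule.span_le]
      rintro _ ⟨j, rfl⟩
      exact Submodule.subset_span ⟨_, (e j).2, rfl⟩
  rw [hspan]
  have hle : (Set.range v).finrank (ZMod p) ≤ Fintype.card (Fin (Module.finrank ℤ M)) :=
    finrank_range_le_card v
  rw [Fintype.card_fin] at hle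
  refine lt_of_le_of_ne hle ?_
  intro heq
  have hli : LinearIndependent (ZMod p) v := by
    rw [linearIndependent_iff_card_eq_finrank_span, Fintype.card_fin]
    exact heq.symm
  have h3 := hrep ⟨_, h1⟩
  have h4 : (fun i => ((((p : ℤ) • ψ) i : ℤ) : ZMod p)) = 0 := by
    funext i
    simp
  simp only at h3
  rw [h4] at h3
  have h5 := Fintype.linearIndependent_iff.1 hli _ h3.symm
  have h6 : ∀ j, (p : ℤ) ∣ e.repr ⟨_, h1⟩ j := fun j =>
    (ZMod.intCast_zmod_eq_zero_iff_dvd _ p).1 (h5 j)
  choose d hd using h6
  apply h2
  have h7 : (p : ℤ) • ψ = (p : ℤ) • ((∑ j, d j • e j : M) : ι → ℤ) := by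
    have h := congrArg (fun m : M => (m : ι → ℤ)) (e.sum_repr ⟨_, h1⟩)
    simp only at h
    rw [← h]
    have : (∑ j, e.repr ⟨_, h1⟩ j • e j : M) = (p : ℤ) • (∑ j, d j • e j : M) := by
      rw [Finset.smul_sum]
      refine Finset.sum_congr rfl fun j _ => ?_
      rw [smul_smul, ← hd j]
    rw [this]
    rfl
  have hp : (p : ℤ) ≠ 0 := by exact_mod_cast (Fact.out : p.Prime).ne_zero
  have h8 : ψ = ((∑ j, d j • e j : M) : ι → ℤ) := by
    funext i
    have := congrFun h7 i
    simp only [Pi.smul_apply, smul_eq_mul] at this
    exact mul_left_cancel₀ hp this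
  rw [h8]
  exact (∑ j, d j • e j : M).2

/-! ## The group theory -/

section

variable {G : Type*} [Group G]

theorem mem_cent {x y : G} : y ∈ cent x ↔ x * y = y * x := by
  unfold cent
  rw [Subgroup.mem_centralizer_singleton_iff]
  exact eq_comm

theorem mem_cent' {x y : G} : y ∈ cent x ↔ y * x = x * y := by
  rw [mem_cent]
  exact eq_comm

theorem self_mem (x : G) : x ∈ cent x := mem_cent.2 rfl

/-- `InB z g` says that `g` is a central element of the centralizer of `z`. -/
def InB (z g : G) : Prop := g ∈ cent z ∧ ∀ h ∈ cent z, g * h = h * g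

theorem inB_self (z : G) : InB z z := ⟨self_mem z, fun _ hh => mem_cent.1 hh⟩

theorem commRow_symm (g h : G) : commRow g h = commRow h g := by
  unfold commRow
  by_cases hgh : g * h = h * g
  · rw [if_pos hgh, if_pos hgh.symm]
  · rw [if_neg hgh, if_neg fun h' => hgh h'.symm]

/-- The criterion with integer weights. -/
theorem criterion [Fintype G] (z : G) (U : G → ℤ) (D : ℤ) (hD : 0 < D)
    (hU : ∀ x, InB z x → U x = 0) (hWD : ∑ x, U x ≠ D)
    (hkey : ∀ g : G, D * commRow g z - ∑ x, U x * commRow g x
      = by classical exact (D - ∑ x, U x) * (if InB z g then 1 else 0))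
    (a : ℤ) (d : ℕ) (hcop : IsCoprime a (d : ℤ)) (had : (∑ x, U x - D) * d = a * D)
    (p : ℕ) (hp : p.Prime) (hpa : (p : ℤ) ∣ a) :
    p ∈ Ccomm G := by
  classical
  set W : ℤ := ∑ x, U x with hWdef
  set φ : G → ℤ := fun g => 1 - (if InB z g then 1 else 0) with hφ
  have hmem : (W - D) • φ ∈ diffLattice G := by
    have h1 : (W - D) • φ = D • (commRow z - commRow 1)
        - ∑ x, U x • (commRow x - commRow (1 : G)) := by
      funext y
      have h2 := hkey y
      have h3 : commRow (1 : G) y = 1 := by
        unfold commRow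
        rw [if_pos (by rw [one_mul, mul_one])]
      simp only [hφ, Pi.smul_apply, Pi.sub_apply, Finset.sum_apply, h3, smul_eq_mul, mul_sub,
        Finset.sum_sub_distrib, mul_one]
      have h4 : ∑ x, U x * commRow x y = ∑ x, U x * commRow y x :=
        Finset.sum_congr rfl fun x _ => by rw [commRow_symm]
      rw [h4, commRow_symm z y, ← hWdef]
      linear_combination -h2
    rw [h1]
    apply Submodule.sub_mem
    · exact Submodule.smul_mem _ _ (Submodule.subset_span ⟨z, 1, rfl⟩)
    · exact Submodule.sum_mem _ fun x _ =>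
        Submodule.smul_mem _ _ (Submodule.subset_span ⟨x, 1, rfl⟩)
  have hdiv : ∀ m ∈ diffLattice G, (W - D) ∣ D * m z - ∑ x, U x * m x := by
    intro m hm
    unfold diffLattice at hm
    induction hm using Submodule.span_induction with
    | mem m hm =>
      obtain ⟨g, g', rfl⟩ := hm
      have e1 := hkey g
      have e2 := hkey g'
      simp only [Pi.sub_apply, mul_sub, Finset.sum_sub_distrib]
      refine ⟨(if InB z g' then 1 else 0) - (if InB z g then 1 else 0), ?_⟩
      linear_combination e1 - e2
    | zero => simp
    | add m m' _ _ h h' =>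
      simp only [Pi.add_apply, mul_add, Finset.sum_add_distrib]
      have : D * m z + D * m' z - (∑ x, U x * m x + ∑ x, U x * m' x)
          = (D * m z - ∑ x, U x * m x) + (D * m' z - ∑ x, U x * m' x) := by ring
      rw [this]
      exact dvd_add h h'
    | smul c m _ h =>
      have : D * (c • m) z - ∑ x, U x * (c • m) x = c * (D * m z - ∑ x, U x * m x) := by
        simp only [Pi.smul_apply, smul_eq_mul, mul_sub, Finset.mul_sum]
        congr 1
        · ring
        · exact Finset.sum_congr rfl fun x _ => by ring
      rw [this]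
      exact Dvd.dvd.mul_left h c
  have hφW : D * φ z - ∑ x, U x * φ x = - W := by
    have e1 : φ z = 0 := by
      simp only [hφ]
      rw [if_pos (inB_self z)]
      ring
    have e2 : ∀ x, U x * φ x = U x := by
      intro x
      by_cases hx : InB z x
      · rw [hU x hx, zero_mul]
      · simp only [hφ]
        rw [if_neg hx]
        ring
    rw [e1, Finset.sum_congr rfl fun x _ => e2 x, ← hWdef]
    ring
  -- the least multiple
  have hex : ∃ n : ℕ, 0 < n ∧ (n : ℤ) • φ ∈ diffLattice G := by
    refine ⟨(W - D).natAbs, by omega, ?_⟩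
    rcases Int.natAbs_eq (W - D) with h | h
    · rw [← h]
      exact hmem
    · have : ((W - D).natAbs : ℤ) = -(W - D) := by omega
      rw [this, neg_smul]
      exact Submodule.neg_mem _ hmem
  obtain ⟨hn0, hnmem⟩ := Nat.find_spec hex
  set n := Nat.find hex with hn
  have hpn : (p : ℤ) ∣ n := by
    obtain ⟨t, ht⟩ := hdiv _ hnmem
    have h1 : D * ((n : ℤ) • φ) z - ∑ x, U x * ((n : ℤ) • φ) x = n * (-W) := by
      rw [← hφW]
      simp only [Pi.smul_apply, smul_eq_mul, mul_sub, Finset.mul_sum]
      congr 1
      · ring
      · exact Finset.sum_congr rfl fun x _ => by ring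
    rw [h1] at ht
    have h2 : D * (n * (a + d)) = D * (-(a * t)) := by
      linear_combination (-(d : ℤ)) * ht - (n + t) * had
    have h3 : (n : ℤ) * (a + d) = -(a * t) := mul_left_cancel₀ hD.ne' h2
    have h4 : a ∣ n * d := by
      refine ⟨-t - n, ?_⟩
      linear_combination h3
    have h5 : a ∣ n := hcop.dvd_of_dvd_mul_right h4
    exact hpa.trans h5
  have hpn' : p ∣ n := by exact_mod_cast hpn
  obtain ⟨m, hm⟩ := hpn'
  have : Fact p.Prime := ⟨hp⟩
  have hm0 : 0 < m := by
    rcases Nat.eq_zero_or_pos m with h | h
    · rw [h, mul_zero] at hm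
      omega
    · exact h
  refine ⟨hp, rank_drop (diffLattice G) p ((m : ℤ) • φ) ?_ ?_⟩
  · rw [smul_smul]
    have : (p : ℤ) * (m : ℤ) = (n : ℤ) := by
      rw [hm]
      push_cast
      ring
    rw [this]
    exact hnmem
  · intro hmm
    have h1 : m < n := by
      rw [hm]
      exact lt_mul_left hm0 hp.one_lt
    exact Nat.find_min hex h1 ⟨hm0, hmm⟩

end

/-- Let `z` be an element of a finite group `G` with centralizer `H`.  Let `u` be a rational
function on `G` that is `0` outside the set of noncentral elements `w` of `H` with `C_G(w) ≤ H`,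
such that the values of `u` at the elements commuting with `y` add up to `1` for every noncentral
element `y` of `H`.  If the sum of all values is not `1`, then every prime dividing the numerator
of that sum minus `1` lies in the commuting conductor of `G`. -/
theorem result (G : Type*) [Group G] [Fintype G] (z : G) (u : G → ℚ)
    (hu : ∀ w, u w ≠ 0 → w ∈ outer z ∧ cent w ≤ cent z)
    (hw : ∀ y ∈ outer z, ∑ w, u w * (commRow y w : ℚ) = 1)
    (h1 : ∑ w, u w ≠ 1) (p : ℕ) (hp : p.Prime) (hpd : (p : ℤ) ∣ (∑ w, u w - 1).num) :
    p ∈ Ccomm G := by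
  classical
  have hout : ∀ x, x ∈ outer z ↔ (x ∈ cent z ∧ ¬ InB z x) := by
    intro x
    constructor
    · rintro ⟨h1, h, hh, hne⟩
      exact ⟨h1, fun hB => hne (hB.2 h hh)⟩
    · rintro ⟨h1, h2⟩
      refine ⟨h1, ?_⟩
      by_contra hcon
      push Not at hcon
      exact h2 ⟨h1, hcon⟩
  set D : ℕ := ∏ x, (u x).den with hDdef
  have hDpos : 0 < D := Finset.prod_pos fun x _ => (u x).den_pos
  have hDQ : (D : ℚ) ≠ 0 := by exact_mod_cast hDpos.ne'
  set U : G → ℤ := fun w => (u w).num * ((∏ x ∈ Finset.univ.erase w, (u x).den : ℕ) : ℤ) with hUdef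
  have hUD : ∀ w, (U w : ℚ) = D * u w := by
    intro w
    have e1 : D = (u w).den * ∏ x ∈ Finset.univ.erase w, (u x).den :=
      (Finset.mul_prod_erase Finset.univ (fun x => (u x).den) (Finset.mem_univ w)).symm
    have e2 : (u w).den * u w = ((u w).num : ℚ) := Rat.den_mul_eq_num (u w)
    rw [e1]
    simp only [hUdef]
    push_cast
    rw [← e2]
    ring
  have hsum : ((∑ x, U x : ℤ) : ℚ) = D * ∑ x, u x := by
    push_cast
    rw [Finset.mul_sum]
    exact Finset.sum_congr rfl fun x _ => hUD x
  have hU0 : ∀ x, InB z x → U x = 0 := by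
    intro x hx
    have e1 : u x = 0 := by
      by_contra hne
      exact ((hout x).1 (hu x hne).1).2 hx
    have e2 := hUD x
    rw [e1, mul_zero] at e2
    exact_mod_cast e2
  refine criterion z U D (by exact_mod_cast hDpos) hU0 ?_ ?_ (∑ w, u w - 1).num
    (∑ w, u w - 1).den ?_ ?_ p hp hpd
  · intro h
    apply h1
    have e1 : ((∑ x, U x : ℤ) : ℚ) = ((D : ℤ) : ℚ) := by rw [h]
    rw [hsum] at e1
    push_cast at e1
    have e2 : (D : ℚ) * ∑ x, u x = D * 1 := by rw [e1, mul_one]
    exact mul_left_cancel₀ hDQ e2
  · intro g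
    have key : (((D : ℤ) * commRow g z - ∑ x, U x * commRow g x : ℤ) : ℚ)
        = (((D : ℤ) - ∑ x, U x) * (if InB z g then 1 else 0) : ℤ) := by
      have e0 : ((∑ x, U x * commRow g x : ℤ) : ℚ) = D * ∑ x, u x * (commRow g x : ℚ) := by
        push_cast
        rw [Finset.mul_sum]
        refine Finset.sum_congr rfl fun x _ => ?_
        rw [hUD x]
        ring
      push_cast [e0]
      have e0' : ∑ x, (U x : ℚ) * (commRow g x : ℚ) = D * ∑ x, u x * (commRow g x : ℚ) := by
        rw [← e0]
        push_cast
        rfl
      have esum : ∑ x, (U x : ℚ) = D * ∑ x, u x := by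
        rw [← hsum]
        push_cast
        rfl
      rw [esum]
      by_cases hg : g ∈ cent z
      · have e1 : commRow g z = 1 := by
          unfold commRow
          rw [if_pos (mem_cent'.1 hg)]
        rw [e1]
        by_cases hgB : InB z g
        · have e2 : ∑ x, u x * (commRow g x : ℚ) = ∑ x, u x := by
            refine Finset.sum_congr rfl fun x _ => ?_
            by_cases hx : u x = 0
            · rw [hx, zero_mul]
            · have hx' := (hu x hx).1
              have : commRow g x = 1 := by
                unfold commRow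
                rw [if_pos (hgB.2 x hx'.1)]
              rw [this]
              push_cast
              ring
          rw [e2, if_pos hgB]
          push_cast
          ring
        · rw [hw g ((hout g).2 ⟨hg, hgB⟩), if_neg hgB]
          push_cast
          ring
      · have e1 : commRow g z = 0 := by
          unfold commRow
          rw [if_neg]
          intro h
          exact hg (mem_cent'.2 h)
        have hgB : ¬ InB z g := fun h => hg h.1
        have e2 : ∑ x, u x * (commRow g x : ℚ) = 0 := by
          apply Finset.sum_eq_zero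
          intro x _
          by_cases hx : u x = 0
          · rw [hx, zero_mul]
          · have hx' := (hu x hx).2
            have : commRow g x = 0 := by
              unfold commRow
              rw [if_neg]
              intro hgx
              exact hg (hx' (mem_cent'.2 hgx))
            rw [this]
            push_cast
            ring
        rw [e1, e2, if_neg hgB]
        push_cast
        ring
    exact_mod_cast key
  · have := (∑ w, u w - 1).reduced
    rw [Int.isCoprime_iff_gcd_eq_one]
    exact this
  · have e1 : (∑ w, u w - 1) * (∑ w, u w - 1).den = ((∑ w, u w - 1).num : ℚ) :=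
      Rat.mul_den_eq_num _
    have e2 : (((∑ x, U x - (D : ℤ)) * ((∑ w, u w - 1).den : ℤ) : ℤ) : ℚ)
        = (((∑ w, u w - 1).num * (D : ℤ) : ℤ) : ℚ) := by
      have e3 : (((∑ x, U x - (D : ℤ)) * ((∑ w, u w - 1).den : ℤ) : ℤ) : ℚ)
          = (((∑ x, U x : ℤ) : ℚ) - D) * ((∑ w, u w - 1).den : ℚ) := by
        push_cast
        ring
      have e4 : (((∑ w, u w - 1).num * (D : ℤ) : ℤ) : ℚ)
          = ((∑ w, u w - 1).num : ℚ) * D := by
        push_cast
        ring
      rw [e3, e4, hsum, ← e1]
      ring
    exact_mod_cast e2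

end Pool.Agent.Results.MP_5fbfc2_al.CommutingWeights
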