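import Pool.Agent.helper387_cc.Fixed

/-!
The commuting conductor of a finite group whose commuting difference lattice has the largest
possible rank.
-/

namespace Pool.Agent.Results.MP_5fbfc2_al.MaximalRank

open H387CC

/-- Let `G` be a finite group for which the rank of `M(G)` is the number of distinct centralizers
of noncentral elements, and `p` a prime. If `p` is not in the commuting conductor, the noncommuting
matrix on the centralizers normalized by a `p`-subgroup `R` is nonsingular modulo `p`; so `p` is in
the conductor if `R` normalizes exactly one of them. A prime `p` dividing `|G : Z(G)|` is in the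
conductor if a Sylow `p`-subgroup `P` has a noncentral element in every centralizer of a noncentral
element that `P` normalizes, and in particular if `G / Z(G)` has a nontrivial normal `p`-subgroup.
So the conductor is not empty when `G` is also solvable and nonabelian. -/
theorem result (G : Type) [Group G] [Fintype G] (hr : rankQ (M G) = Nat.card (Cent G)) :
    (∀ (p : ℕ) (R : Subgroup G), p.Prime → IsPGroup p R → p ∉ Ccomm G →
      ∀ f : Cent G → ZMod p,
        (∀ C : Cent G, ¬ R ≤ Subgroup.normalizer (C.1 : Set G) → f C = 0) →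
        (∀ D : Cent G, R ≤ Subgroup.normalizer (D.1 : Set G) →
          ∀ y : G, Subgroup.centralizer {y} = D.1 → ∑ᶠ (C : Cent G) (_ : y ∉ C.1), f C = 0) →
        f = 0) ∧
    (∀ (p : ℕ) (R : Subgroup G), p.Prime → IsPGroup p R →
      (∃! C : Cent G, R ≤ Subgroup.normalizer (C.1 : Set G)) → p ∈ Ccomm G) ∧
    (∀ (p : ℕ) (P : Sylow p G), p.Prime → p ∣ (Subgroup.center G).index →
      (∀ x ∉ Subgroup.center G,
        (∀ g ∈ P, Subgroup.centralizer {g * x * g⁻¹} = Subgroup.centralizer {x}) →
        ∃ t ∈ P, t ∉ Subgroup.center G ∧ t * x = x * t) →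
      p ∈ Ccomm G) ∧
    (∀ (p : ℕ) (Q : Subgroup (G ⧸ Subgroup.center G)),
      p.Prime → Q.Normal → IsPGroup p Q → Q ≠ ⊥ → p ∈ Ccomm G) ∧
    (Group.IsSolvable G → (∃ x y : G, x * y ≠ y * x) → (Ccomm G).Nonempty) :=
  ⟨fun _ R hp hR hpc f hf hf0 => normalized_inj hp R hR hr hpc f hf hf0,
    fun _ R hp hR hu => unique_normalized hp R hR hr hu,
    fun _ P hp hd hc => brauer_gen hp P hr hd hc,
    fun _ Q hp _ hQ hQ1 => brauer hp hr Q hQ hQ1,
    fun hs hna => solvable_case hs hna hr⟩

end Pool.Agent.Results.MP_5fbfc2_al.MaximalRank
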