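import Pool.Agent.helper387_cc.Basic

/-!
Odd rank of the commuting difference lattice, a counting criterion, and `p`-groups.
-/

namespace Pool.Agent.Results.MP_5fbfc2_al.OddRankPGroups

open H387CC

/-- The prime `2` is in the commuting conductor when the rank of `M(G)` is odd. For a prime `p` that
is not in the conductor and `p ^ c` dividing `|G| - |C(x)|` for all `x`, the number
`|G| ^ 2 - |G| k(G)` is divisible by `p ^ (2 c)`, and by `2 ^ (2 c + 1)` if `p = 2`. A nonabelian
`p`-group `G` has `p` in the conductor if `|G|` (for `p = 2`: `2 |G|`) does not divide `B ^ 2 k(G)`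
for the largest class size `B`, or if the indicator of the noncentral elements is in the rational
span of `M(G)`, or if all noncentral elements have the same class size. -/
theorem result :
    (∀ (G : Type) [Group G] [Fintype G], Odd (rankQ (M G)) → 2 ∈ Ccomm G) ∧
    (∀ (G : Type) [Group G] [Fintype G] (p c : ℕ), p.Prime →
      (∀ x : G, (p : ℤ) ^ c ∣ (Nat.card G : ℤ) - Nat.card {g : G // Commute g x}) →
      p ∉ Ccomm G →
      (p : ℤ) ^ (2 * c) ∣ (Nat.card G : ℤ) ^ 2 - Nat.card G * Nat.card (ConjClasses G) ∧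
      (p = 2 → (2 : ℤ) ^ (2 * c + 1) ∣
        (Nat.card G : ℤ) ^ 2 - Nat.card G * Nat.card (ConjClasses G))) ∧
    (∀ (G : Type) [Group G] [Fintype G] (p : ℕ), p.Prime → IsPGroup p G →
      (∃ x y : G, x * y ≠ y * x) →
      ((∃ x₀ : G, (∀ x : G, classSize x ≤ classSize x₀) ∧
          ¬ Nat.card G * (if p = 2 then 2 else 1) ∣
            classSize x₀ ^ 2 * Nat.card (ConjClasses G)) ∨
        (fun x => (noncentral G x : ℚ)) ∈ spanQ (M G) ∨
        (∃ s : ℕ, ∀ x ∉ Subgroup.center G, classSize x = s)) →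
      p ∈ Ccomm G) := by
  refine ⟨fun _ _ _ h => odd_rank h, fun _ _ _ _ c hp hc hpc => general hp c hc hpc,
    fun G _ _ p hp hG hna h => ?_⟩
  rcases h with ⟨x₀, hB, h⟩ | h | ⟨s, hs⟩
  · by_contra hpc
    exact h (pgroup_count hp hG hna x₀ hB hpc)
  · exact pgroup_span hp hG hna h
  · exact pgroup_equal hp hG hna s hs

end Pool.Agent.Results.MP_5fbfc2_al.OddRankPGroups
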