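import Pool.Agent.Helper773_Comm.LocalCA

/-!
# The commuting conductor of the symmetric groups

For every `n ≥ 7` the prime `3` lies in the commuting conductor of the symmetric group of
degree `n`.  The element `z` used is a cycle of length `n - 3`: its centralizer is the product of a
cyclic group with a symmetric group of degree three.
-/

namespace Pool.Agent.Results.MP_5fbfc2_al.SymmetricGroups

open Equiv Pool.Agent.Helper773_Comm.LocalCA

section

variable {m : ℕ}

/-- The rotation of `ZMod m`. -/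
def rot (m : ℕ) : Perm (ZMod m) := Equiv.addRight 1

theorem rot_pow (k : ℕ) (j : ZMod m) : ((rot m) ^ k) j = j + k := by
  induction k with
  | zero => simp
  | succ k ih =>
    rw [pow_succ', Perm.mul_apply, ih]
    simp [rot, add_assoc]

theorem comm_rot [NeZero m] {τ : Perm (ZMod m)} (h : τ * rot m = rot m * τ) (j : ZMod m) :
    τ j = τ 0 + j := by
  have h1 : ∀ k : ℕ, τ (k : ZMod m) = τ 0 + k := by
    intro k
    induction k with
    | zero => simp
    | succ k ih =>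
      have := Equiv.congr_fun h (k : ZMod m)
      simp only [Perm.mul_apply, rot, Equiv.coe_addRight] at this
      push_cast
      rw [this, ih, add_assoc]
  have := h1 j.val
  rwa [ZMod.natCast_zmod_val] at this

/-- The element of the product of the two symmetric groups. -/
abbrev pr (σ : Perm (Fin 3)) (τ : Perm (ZMod m)) : Perm (Fin 3 ⊕ ZMod m) :=
  Perm.sumCongrHom (Fin 3) (ZMod m) (σ, τ)

theorem pr_inl (σ : Perm (Fin 3)) (τ : Perm (ZMod m)) (i : Fin 3) :
    pr σ τ (Sum.inl i) = Sum.inl (σ i) := rfl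

theorem pr_inr (σ : Perm (Fin 3)) (τ : Perm (ZMod m)) (j : ZMod m) :
    pr σ τ (Sum.inr j) = Sum.inr (τ j) := rfl

theorem pr_mul (σ σ' : Perm (Fin 3)) (τ τ' : Perm (ZMod m)) :
    pr σ τ * pr σ' τ' = pr (σ * σ') (τ * τ') := by
  unfold pr
  rw [← map_mul, Prod.mk_mul_mk]

theorem pr_inj {σ σ' : Perm (Fin 3)} {τ τ' : Perm (ZMod m)} (h : pr σ τ = pr σ' τ') :
    σ = σ' ∧ τ = τ' := by
  have := Perm.sumCongrHom_injective h
  exact Prod.mk.inj this

theorem small (σ : Perm (Fin 3)) (i : Fin 3) : (σ ^ 2) i = i ∨ (σ ^ 3) i = i := by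
  revert σ i
  decide

theorem no_cross [NeZero m] (hm : 4 ≤ m) (σ : Perm (Fin 3)) (π : Perm (Fin 3 ⊕ ZMod m))
    (h : π * pr σ (rot m) = pr σ (rot m) * π) (j : ZMod m) (i : Fin 3) :
    π (Sum.inr j) ≠ Sum.inl i := by
  intro hij
  have key : ∀ k : ℕ, 0 < k → k < 4 → (σ ^ k) i = i → False := by
    intro k hk0 hk4 hk
    have hc : Commute π (pr σ (rot m) ^ k) := Commute.pow_right h k
    have hpow : pr σ (rot m) ^ k = pr (σ ^ k) ((rot m) ^ k) := by
      unfold pr
      rw [← map_pow]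
      rfl
    have h1 := Equiv.congr_fun hc.eq (Sum.inr j)
    rw [Perm.mul_apply, Perm.mul_apply, hij, hpow, pr_inl, pr_inr, hk, ← hij] at h1
    have h2 := π.injective h1
    have h3 : ((rot m) ^ k) j = j := Sum.inr_injective h2
    rw [rot_pow] at h3
    have h4 : ((k : ℕ) : ZMod m) = 0 := by simpa using h3
    rw [ZMod.natCast_eq_zero_iff] at h4
    have := Nat.le_of_dvd hk0 h4
    omega
  rcases small σ i with h2 | h3
  · exact key 2 (by norm_num) (by norm_num) h2
  · exact key 3 (by norm_num) (by norm_num) h3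

theorem split [NeZero m] (hm : 4 ≤ m) (σ : Perm (Fin 3)) (π : Perm (Fin 3 ⊕ ZMod m))
    (h : π * pr σ (rot m) = pr σ (rot m) * π) :
    ∃ (τ : Perm (Fin 3)) (c : ZMod m), τ * σ = σ * τ ∧ π = pr τ (Equiv.addRight c) := by
  have hinv : π⁻¹ * pr σ (rot m) = pr σ (rot m) * π⁻¹ := by
    have hc : Commute π (pr σ (rot m)) := h
    exact hc.inv_left.eq
  have hmaps : Set.MapsTo π (Set.range Sum.inl) (Set.range Sum.inl) := by
    rintro _ ⟨i, rfl⟩
    rcases hx : π (Sum.inl i) with i' | j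
    · exact ⟨i', rfl⟩
    · exfalso
      apply no_cross hm σ π⁻¹ hinv j i
      rw [← hx]
      exact Equiv.symm_apply_apply π _
  obtain ⟨⟨τ, ρ⟩, hτρ⟩ := Perm.mem_sumCongrHom_range_of_perm_mapsTo_inl hmaps
  have hπ : π = pr τ ρ := hτρ.symm
  rw [hπ, pr_mul, pr_mul] at h
  obtain ⟨h1, h2⟩ := pr_inj h
  refine ⟨τ, ρ 0, h1, ?_⟩
  rw [hπ]
  congr 2
  ext1 j
  rw [comm_rot h2 j, Equiv.coe_addRight, add_comm]

theorem addRight_comm (c d : ZMod m) :
    (Equiv.addRight c : Perm (ZMod m)) * Equiv.addRight d = Equiv.addRight d * Equiv.addRight c := by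
  ext1 j
  simp only [Perm.mul_apply, Equiv.coe_addRight]
  ring

theorem pr_comm_iff (σ τ : Perm (Fin 3)) (c d : ZMod m) :
    pr σ (Equiv.addRight c) * pr τ (Equiv.addRight d)
      = pr τ (Equiv.addRight d) * pr σ (Equiv.addRight c) ↔ σ * τ = τ * σ := by
  rw [pr_mul, pr_mul]
  constructor
  · intro h
    exact (pr_inj h).1
  · intro h
    rw [h, addRight_comm]

theorem mem_cent_pr [NeZero m] (hm : 4 ≤ m) (σ : Perm (Fin 3)) (π : Perm (Fin 3 ⊕ ZMod m)) :
    π ∈ cent (pr σ (rot m)) ↔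
      ∃ (τ : Perm (Fin 3)) (c : ZMod m), σ * τ = τ * σ ∧ π = pr τ (Equiv.addRight c) := by
  constructor
  · intro h
    obtain ⟨τ, c, h1, h2⟩ := split hm σ π (mem_cent.1 h).symm
    exact ⟨τ, c, h1.symm, h2⟩
  · rintro ⟨τ, c, h1, rfl⟩
    exact mem_cent.2 ((pr_comm_iff σ τ 1 c).2 h1)

theorem s3_ab (σ : Perm (Fin 3)) (hσ : σ ≠ 1) (τ τ' : Perm (Fin 3)) (h : σ * τ = τ * σ)
    (h' : σ * τ' = τ' * σ) : τ * τ' = τ' * τ := by
  revert σ τ τ'
  decide

/-- Representatives of the four centralizers of nonidentity elements of `S_3`. -/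
def rep : Fin 4 → Perm (Fin 3) := ![swap 0 1, swap 0 2, swap 1 2, finRotate 3]

theorem rep_ne : ∀ i, rep i ≠ 1 := by decide

theorem rep_inj : ∀ i j : Fin 4, (∀ τ : Perm (Fin 3), rep i * τ = τ * rep i ↔
    rep j * τ = τ * rep j) → i = j := by decide

theorem rep_surj : ∀ σ : Perm (Fin 3), σ ≠ 1 → ∃ i : Fin 4, ∀ τ : Perm (Fin 3),
    rep i * τ = τ * rep i ↔ σ * τ = τ * σ := by decide

theorem noncentral : ∀ σ : Perm (Fin 3), σ ≠ 1 → ∃ τ : Perm (Fin 3), σ * τ ≠ τ * σ := by decide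

theorem three_mem [NeZero m] (hm : 4 ≤ m) : 3 ∈ Ccomm (Perm (Fin 3 ⊕ ZMod m)) := by
  classical
  set z : Perm (Fin 3 ⊕ ZMod m) := pr 1 (rot m) with hz
  have hcz : ∀ π, π ∈ cent z ↔ ∃ (τ : Perm (Fin 3)) (c : ZMod m), π = pr τ (Equiv.addRight c) := by
    intro π
    rw [hz, mem_cent_pr hm]
    constructor
    · rintro ⟨τ, c, -, h⟩
      exact ⟨τ, c, h⟩
    · rintro ⟨τ, c, h⟩
      exact ⟨τ, c, by rw [one_mul, mul_one], h⟩
  -- the inner centralizers
  have hinner : ∀ (σ : Perm (Fin 3)) (c : ZMod m) (π : Perm (Fin 3 ⊕ ZMod m)),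
      π ∈ cent z ⊓ cent (pr σ (Equiv.addRight c)) ↔
        ∃ (τ : Perm (Fin 3)) (d : ZMod m), σ * τ = τ * σ ∧ π = pr τ (Equiv.addRight d) := by
    intro σ c π
    rw [Subgroup.mem_inf, hcz]
    constructor
    · rintro ⟨⟨τ, d, rfl⟩, h⟩
      exact ⟨τ, d, (pr_comm_iff σ τ c d).1 (mem_cent.1 h), rfl⟩
    · rintro ⟨τ, d, h, rfl⟩
      exact ⟨⟨τ, d, rfl⟩, mem_cent.2 ((pr_comm_iff σ τ c d).2 h)⟩
  have hne1 : ∀ (σ : Perm (Fin 3)) (c : ZMod m),
      (∃ h ∈ cent z, pr σ (Equiv.addRight c) * h ≠ h * pr σ (Equiv.addRight c)) → σ ≠ 1 := by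
    rintro σ c ⟨h, hh, hne⟩ rfl
    obtain ⟨τ, d, rfl⟩ := (hcz h).1 hh
    exact hne ((pr_comm_iff 1 τ c d).2 (by rw [one_mul, mul_one]))
  have hne2 : ∀ (σ : Perm (Fin 3)) (c : ZMod m), σ ≠ 1 →
      ∃ h ∈ cent z, pr σ (Equiv.addRight c) * h ≠ h * pr σ (Equiv.addRight c) := by
    intro σ c hσ
    obtain ⟨τ, hτ⟩ := noncentral σ hσ
    refine ⟨pr τ (Equiv.addRight 0), (hcz _).2 ⟨τ, 0, rfl⟩, ?_⟩
    intro h
    exact hτ ((pr_comm_iff σ τ c 0).1 h)
  have hmain := result (Perm (Fin 3 ⊕ ZMod m)) z ?_ ?_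
  · apply hmain.2.1 3 Nat.prime_three
    have hcard : (innerCent z).ncard = 4 := by
      set Ψ : Fin 4 → Subgroup (Perm (Fin 3 ⊕ ZMod m)) :=
        fun i => cent z ⊓ cent (pr (rep i) (Equiv.addRight 0)) with hΨ
      have hinj : Function.Injective Ψ := by
        intro i j hij
        apply rep_inj
        intro τ
        have h1 : pr τ (Equiv.addRight (0 : ZMod m)) ∈ Ψ i ↔
            pr τ (Equiv.addRight (0 : ZMod m)) ∈ Ψ j := by rw [hij]
        have h2 : ∀ k, pr τ (Equiv.addRight (0 : ZMod m)) ∈ Ψ k ↔ rep k * τ = τ * rep k := by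
          intro k
          simp only [hΨ]
          rw [hinner]
          constructor
          · rintro ⟨τ', d, h, h'⟩
            rw [(pr_inj h').1]
            exact h
          · intro h
            exact ⟨τ, 0, h, rfl⟩
        rw [← h2, ← h2]
        exact h1
      have hrange : innerCent z = Set.range Ψ := by
        ext S
        constructor
        · rintro ⟨x, hx, hne, rfl⟩
          obtain ⟨σ, c, rfl⟩ := (hcz x).1 hx
          obtain ⟨i, hi⟩ := rep_surj σ (hne1 σ c hne)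
          refine ⟨i, ?_⟩
          ext π
          simp only [hΨ]
          rw [hinner, hinner]
          constructor
          · rintro ⟨τ, d, h, h'⟩
            exact ⟨τ, d, (hi τ).1 h, h'⟩
          · rintro ⟨τ, d, h, h'⟩
            exact ⟨τ, d, (hi τ).2 h, h'⟩
        · rintro ⟨i, rfl⟩
          exact ⟨pr (rep i) (Equiv.addRight 0), (hcz _).2 ⟨_, _, rfl⟩,
            hne2 _ _ (rep_ne i), rfl⟩
      rw [hrange, ← Set.image_univ, Set.ncard_image_of_injective _ hinj, Set.ncard_univ,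
        Nat.card_eq_fintype_card, Fintype.card_fin]
    rw [hcard]
  · obtain ⟨h, hh, hne⟩ := hne2 (swap 0 1) 0 (by decide)
    exact ⟨_, (hcz _).2 ⟨_, _, rfl⟩, h, hh, hne⟩
  · intro x hx hne
    obtain ⟨σ, c, rfl⟩ := (hcz x).1 hx
    have hσ := hne1 σ c hne
    refine ⟨pr σ (rot m), ?_, ?_⟩
    · ext π
      rw [mem_cent_pr hm, hinner]
    · intro y hy y' hy'
      obtain ⟨τ, d, h, rfl⟩ := (mem_cent_pr hm σ y).1 hy
      obtain ⟨τ', d', h', rfl⟩ := (mem_cent_pr hm σ y').1 hy'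
      exact (pr_comm_iff τ τ' d d').2 (s3_ab σ hσ τ τ' h h')

end

/-! ## Invariance under isomorphism -/

theorem Ccomm_equiv {G G' : Type*} [Group G] [Group G'] (e : G ≃* G') {p : ℕ}
    (h : p ∈ Ccomm G) : p ∈ Ccomm G' := by
  classical
  obtain ⟨hp, hlt⟩ := h
  refine ⟨hp, ?_⟩
  set L : (G → ℤ) ≃ₗ[ℤ] (G' → ℤ) := LinearEquiv.funCongrLeft ℤ ℤ e.symm.toEquiv with hL
  set Lp : (G → ZMod p) ≃ₗ[ZMod p] (G' → ZMod p) :=
    LinearEquiv.funCongrLeft (ZMod p) (ZMod p) e.symm.toEquiv with hLp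
  have hrow : ∀ g : G, L (commRow g) = commRow (e g) := by
    intro g
    funext y
    simp only [hL, LinearEquiv.funCongrLeft_apply, LinearMap.funLeft_apply]
    unfold commRow
    have : (g * e.symm.toEquiv y = e.symm.toEquiv y * g) ↔ (e g * y = y * e g) := by
      constructor
      · intro h
        have := congrArg e h
        simpa using this
      · intro h
        have := congrArg e.symm h
        simpa using this
    simp only [this]
  have hM : diffLattice G' = (diffLattice G).map (L : (G → ℤ) →ₗ[ℤ] (G' → ℤ)) := by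
    unfold diffLattice
    rw [Submodule.map_span]
    congr 1
    ext f
    constructor
    · rintro ⟨g, g', rfl⟩
      refine ⟨commRow (e.symm g) - commRow (e.symm g'), ⟨_, _, rfl⟩, ?_⟩
      have := hrow (e.symm g)
      have h2 := hrow (e.symm g')
      rw [MulEquiv.apply_symm_apply] at this h2
      rw [LinearEquiv.coe_coe, map_sub, this, h2]
    · rintro ⟨_, ⟨g, g', rfl⟩, rfl⟩
      refine ⟨e g, e g', ?_⟩
      rw [LinearEquiv.coe_coe, map_sub, hrow, hrow]
  have h1 : Module.finrank ℤ (diffLattice G') = Module.finrank ℤ (diffLattice G) := by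
    rw [hM]
    exact LinearEquiv.finrank_map_eq L (diffLattice G)
  have h2 : rankMod G' p = rankMod G p := by
    unfold rankMod
    have h3 : ((fun (f : G' → ℤ) (h : G') => ((f h : ℤ) : ZMod p)) ''
        (diffLattice G' : Set (G' → ℤ)))
        = (Lp : (G → ZMod p) →ₗ[ZMod p] (G' → ZMod p)) ''
          ((fun (f : G → ℤ) (h : G) => ((f h : ℤ) : ZMod p)) ''
            (diffLattice G : Set (G → ℤ))) := by
      rw [hM]
      ext f
      constructor
      · rintro ⟨_, ⟨f, hf, rfl⟩, rfl⟩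
        exact ⟨_, ⟨f, hf, rfl⟩, rfl⟩
      · rintro ⟨_, ⟨f, hf, rfl⟩, rfl⟩
        exact ⟨_, ⟨f, hf, rfl⟩, rfl⟩
    rw [h3, ← Submodule.map_span]
    exact LinearEquiv.finrank_map_eq Lp _
  rw [h1, h2]
  exact hlt

/-- For every `n ≥ 7`, the prime `3` lies in the commuting conductor of the symmetric group of
degree `n`. -/
theorem result (n : ℕ) (hn : 7 ≤ n) : 3 ∈ Ccomm (Equiv.Perm (Fin n)) := by
  obtain ⟨m, rfl⟩ : ∃ m, n = 3 + m := ⟨n - 3, by omega⟩
  have hm : 4 ≤ m := by omega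
  have : NeZero m := ⟨by omega⟩
  have e : (Fin 3 ⊕ ZMod m) ≃ Fin (3 + m) :=
    (Equiv.sumCongr (Equiv.refl _) (ZMod.finEquiv m).symm.toEquiv).trans finSumFinEquiv
  exact Ccomm_equiv (Equiv.permCongrHom e) (three_mem hm)

end Pool.Agent.Results.MP_5fbfc2_al.SymmetricGroups
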